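import Pool.Agent.helper37.MW.Spec

set_option autoImplicit false

namespace Pool.Agent.helper37.MW

open Finset Pool.Agent.NK

theorem CST_a (m l : ℕ) (h : l ≤ m) :
    ((m : ℝ) + 2) * ((m : ℝ) + 1) * (m.choose l : ℝ) =
      ((m + 2).choose (l + 1) : ℝ) * ((l : ℝ) + 1) * ((m : ℝ) + 1 - l) := by
  have h1 : (m + 1 + 1) * (m + 1).choose l = (m + 1 + 1).choose (l + 1) * (l + 1) :=
    Nat.add_one_mul_choose_eq (m + 1) l
  have h2 : m.choose l * (m + 1) = (m + 1).choose l * (m + 1 - l) := Nat.choose_mul_succ_eq m l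
  have h1' : ((m : ℝ) + 2) * ((m + 1).choose l : ℝ) =
      ((m + 2).choose (l + 1) : ℝ) * ((l : ℝ) + 1) := by
    have h3 : (((m + 1 + 1) * (m + 1).choose l : ℕ) : ℝ) =
        (((m + 1 + 1).choose (l + 1) * (l + 1) : ℕ) : ℝ) := by rw [h1]
    push_cast at h3
    linarith
  have h2' : (m.choose l : ℝ) * ((m : ℝ) + 1) =
      ((m + 1).choose l : ℝ) * ((m : ℝ) + 1 - l) := by
    have h3 : ((m.choose l * (m + 1) : ℕ) : ℝ) = (((m + 1).choose l * (m + 1 - l) : ℕ) : ℝ) := by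
      rw [h2]
    rw [Nat.cast_mul, Nat.cast_mul, Nat.cast_sub (by omega)] at h3
    push_cast at h3
    linarith
  calc ((m : ℝ) + 2) * ((m : ℝ) + 1) * (m.choose l : ℝ)
      = ((m : ℝ) + 2) * ((m.choose l : ℝ) * ((m : ℝ) + 1)) := by ring
    _ = (((m : ℝ) + 2) * ((m + 1).choose l : ℝ)) * ((m : ℝ) + 1 - l) := by rw [h2']; ring
    _ = _ := by rw [h1']

theorem CST : CST_stmt := by
  intro p q k hp hn hk1 hk2
  have hpp : 3 * p ≤ p ^ 2 := by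
    rw [pow_two]
    exact Nat.mul_le_mul_right p hp
  have hnR : (100 : ℝ) * (p : ℝ) ^ 2 + 100 ≤ (p : ℝ) + q := by exact_mod_cast hn
  have hk1R : (p : ℝ) + q < 3 * (k : ℝ) := by exact_mod_cast hk1
  have hk2R : 50 * (k : ℝ) ≤ 17 * ((p : ℝ) + q) := by exact_mod_cast hk2
  have hpR : (3 : ℝ) ≤ p := by exact_mod_cast hp
  have hppR : 3 * (p : ℝ) ≤ (p : ℝ) ^ 2 := by exact_mod_cast hpp
  have hpos : (0 : ℝ) < (p : ℝ) + q := by linarith
  have hfr : (p : ℝ) ^ 2 / ((p : ℝ) + q) ≤ 1 / 100 := by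
    rw [div_le_iff₀ hpos]
    linarith
  refine ⟨by omega, by omega, by omega, by omega, ?_, ?_, ?_, ?_, ?_⟩
  · rw [le_div_iff₀ hpos]
    linarith
  · rw [div_le_iff₀ hpos]
    linarith
  · linarith
  · linarith
  · obtain ⟨m, hm⟩ : ∃ m, p + q = m + 2 := ⟨p + q - 2, by omega⟩
    obtain ⟨l, hl⟩ : ∃ l, k = l + 1 := ⟨k - 1, by omega⟩
    have hlm : l ≤ m := by omega
    have hmR : (p : ℝ) + q = (m : ℝ) + 2 := by exact_mod_cast hm
    have hlR : (k : ℝ) = (l : ℝ) + 1 := by exact_mod_cast hl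
    have e1 : p + q - 2 = m := by omega
    have e2 : k - 1 = l := by omega
    rw [e1, e2, hm, hl]
    have hA : (0 : ℝ) ≤ ((m + 2).choose (l + 1) : ℝ) := Nat.cast_nonneg _
    have hD : (0 : ℝ) ≤ (m.choose l : ℝ) := Nat.cast_nonneg _
    have hid := CST_a m l hlm
    have hm0 : (0 : ℝ) ≤ m := Nat.cast_nonneg _
    have hb : (0.43 : ℝ) * (((m : ℝ) + 2) * ((m : ℝ) + 1)) ≤
        1.98 * (((l : ℝ) + 1) * ((m : ℝ) + 1 - l)) := by
      have c1 : ((m : ℝ) + 2) / 3 ≤ (l : ℝ) + 1 := by linarith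
      have c2 : (0.66 : ℝ) * ((m : ℝ) + 2) ≤ (m : ℝ) + 1 - l := by linarith
      have c3 : ((m : ℝ) + 2) / 3 * (0.66 * ((m : ℝ) + 2)) ≤ ((l : ℝ) + 1) * ((m : ℝ) + 1 - l) :=
        mul_le_mul c1 c2 (by positivity) (by linarith)
      nlinarith
    have hc : (0.43 : ℝ) * ((m + 2).choose (l + 1) : ℝ) ≤ 1.98 * (m.choose l : ℝ) := by
      have hP : (0 : ℝ) < ((m : ℝ) + 2) * ((m : ℝ) + 1) := by positivity
      refine le_of_mul_le_mul_left ?_ hP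
      calc ((m : ℝ) + 2) * ((m : ℝ) + 1) * (0.43 * ((m + 2).choose (l + 1) : ℝ))
          = ((m + 2).choose (l + 1) : ℝ) * (0.43 * (((m : ℝ) + 2) * ((m : ℝ) + 1))) := by ring
        _ ≤ ((m + 2).choose (l + 1) : ℝ) * (1.98 * (((l : ℝ) + 1) * ((m : ℝ) + 1 - l))) :=
            mul_le_mul_of_nonneg_left hb hA
        _ = 1.98 * (((m + 2).choose (l + 1) : ℝ) * ((l : ℝ) + 1) * ((m : ℝ) + 1 - l)) := by ring
        _ = 1.98 * (((m : ℝ) + 2) * ((m : ℝ) + 1) * (m.choose l : ℝ)) := by rw [hid]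
        _ = _ := by ring
    have hd : (0.99 : ℝ) ≤ 1 - (p : ℝ) ^ 2 / ((p : ℝ) + q) := by linarith
    calc (0.43 : ℝ) * ((m + 2).choose (l + 1) : ℝ) ≤ 1.98 * (m.choose l : ℝ) := hc
      _ = 0.99 * (2 * (m.choose l : ℝ)) := by ring
      _ ≤ (1 - (p : ℝ) ^ 2 / ((p : ℝ) + q)) * (2 * (m.choose l : ℝ)) :=
          mul_le_mul_of_nonneg_right hd (by positivity)

end Pool.Agent.helper37.MW

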